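import Mathlib
import Pool.Agent.W456.Main

set_option autoImplicit false

/-!
The dimension of a scheme of finite type over a field is an invariant of the triangulated
category of its perfect complexes.

Here `Dpf X` is the full subcategory of the (unbounded) derived category of all modules over the
structure sheaf of `X` whose objects are locally isomorphic to bounded complexes of finite locally
free modules. The hypothesis `he` is weaker than exactness of the equivalence `e`: it only asks
that `e` commutes with the shift on objects.
-/

universe u

open CategoryTheory CategoryTheory.Limits AlgebraicGeometry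

namespace Pool.Agent.Results.MP_777c16_ag.DimensionInvariant

open Pool.Agent.W456

theorem result {k : Type u} [Field k] {X Y : Scheme.{u}}
    (p : X ⟶ Spec (CommRingCat.of k)) (q : Y ⟶ Spec (CommRingCat.of k))
    [LocallyOfFiniteType p] [QuasiCompact p] [LocallyOfFiniteType q] [QuasiCompact q]
    (e : Dpf X ≌ Dpf Y)
    (he : ∀ A : Dpf X,
      Nonempty (e.functor.obj (A⟦(1 : ℤ)⟧) ≅ (e.functor.obj A)⟦(1 : ℤ)⟧)) :
    topologicalKrullDim X = topologicalKrullDim Y := by
  apply eq_of_nat_le_iff
  intro l
  rw [← inv_iff p l, ← inv_iff q l]
  exact Inv.iff e he l

end Pool.Agent.Results.MP_777c16_ag.DimensionInvariant
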